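import Pool.Agent.Helper91.GU.StB

/-!
Project GU, module B3: facts about the matrix `1 + t c`.
-/

set_option autoImplicit false

namespace Pool.Agent.Helper86.GU

universe u

open Pool.Agent.Helper91.GU
open Polynomial Matrix

lemma det_theta {A : Type u} [CommRing A] {r : ℕ} (c t : Fin r → A) :
    (theta c t).det = 1 + c ⬝ᵥ t := by
  unfold theta
  rw [Matrix.vecMulVec_eq Unit, Matrix.det_one_add_replicateCol_mul_replicateRow]

lemma theta_mul {A : Type u} [CommRing A] {r : ℕ} (c a t : Fin r → A) :
    theta c a * theta c t = 1 + Matrix.vecMulVec t c + Matrix.vecMulVec a c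
      + (c ⬝ᵥ t) • Matrix.vecMulVec a c := by
  unfold theta
  rw [mul_add, add_mul, add_mul, one_mul, one_mul, mul_one]
  have h : Matrix.vecMulVec a c * Matrix.vecMulVec t c = (c ⬝ᵥ t) • Matrix.vecMulVec a c := by
    ext i j
    simp only [Matrix.mul_apply, Matrix.vecMulVec_apply, Matrix.smul_apply, smul_eq_mul,
      dotProduct, Finset.sum_mul]
    apply Finset.sum_congr rfl
    intro x _
    ring
  rw [h]
  abel

lemma hid_theta {A : Type u} [CommRing A] {r : ℕ} (c a : Fin r → A) (h : c ⬝ᵥ a = 0) :
    HId (theta c a) := by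
  refine ⟨theta (fun j => C (c j)) (fun i => X * C (a i)), ?_, ?_, ?_⟩
  · rw [det_theta]
    have h1 : (fun j => C (c j)) ⬝ᵥ (fun i => X * C (a i)) = (X : A[X]) * C (c ⬝ᵥ a) := by
      simp only [dotProduct, map_sum, map_mul, Finset.mul_sum]
      apply Finset.sum_congr rfl
      intro x _
      ring
    rw [h1, h, map_zero, mul_zero, add_zero]
    exact isUnit_one
  · ext i j
    simp only [theta, Matrix.add_apply, Matrix.one_apply, Matrix.vecMulVec_apply, Matrix.map_apply]
    split_ifs <;> simp
  · ext i j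
    simp only [theta, Matrix.add_apply, Matrix.one_apply, Matrix.vecMulVec_apply, Matrix.map_apply]
    split_ifs <;> simp

theorem hB3 : StB3.{u} := by
  intro A _ r c t t' w hw hct
  refine ⟨?_, ?_, ?_⟩
  · rw [det_theta, hct]
    ring
  · intro hct'
    obtain ⟨wi, hwi⟩ := hw.exists_left_inv
    refine ⟨theta c (fun i => wi * (t' i - t i)), ?_, ?_⟩
    · apply hid_theta
      have h1 : c ⬝ᵥ (fun i => wi * (t' i - t i)) = wi * (c ⬝ᵥ t' - c ⬝ᵥ t) := by
        simp only [dotProduct, ← Finset.sum_sub_distrib, Finset.mul_sum]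
        apply Finset.sum_congr rfl
        intro x _
        ring
      rw [h1, hct, hct', sub_self, mul_zero]
    · rw [theta_mul, hct]
      ext i j
      simp only [theta, Matrix.add_apply, Matrix.vecMulVec_apply, Matrix.smul_apply, smul_eq_mul]
      have h2 : t' i * c j = t i * c j + (wi * w) * (t' i - t i) * c j := by
        rw [hwi]; ring
      rw [h2]
      ring
  · intro g hg
    have hg' : g⁻¹ * g = 1 := Matrix.nonsing_inv_mul g hg
    unfold theta
    rw [mul_add, mul_one, add_mul, hg', ← Matrix.mul_vecMulVec, ← Matrix.vecMulVec_mul]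
    rw [← Matrix.mul_assoc]

end Pool.Agent.Helper86.GU
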